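import Mathlib

/-!
Project SV (simplicial volume of closed affine manifolds): definitions and exact statements.
-/

set_option autoImplicit false

open Set Filter Topology

namespace Pool.Agent.N520.SV

/-- the standard simplex of dimension `k` -/
abbrev Sx (k : ℕ) : Type := stdSimplex ℝ (Fin (k + 1))

/-- real singular chains of degree `k` -/
abbrev Chain (k : ℕ) (M : Type) [TopologicalSpace M] : Type := C(Sx k, M) →₀ ℝ

/-- the inclusion of the face opposite to the vertex `i` -/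
noncomputable def face {k : ℕ} (i : Fin (k + 2)) : C(Sx k, Sx (k + 1)) :=
  ⟨stdSimplex.map i.succAbove, stdSimplex.continuous_map _⟩

/-- the boundary of singular chains -/
noncomputable def bdry {M : Type} [TopologicalSpace M] (k : ℕ) : Chain (k + 1) M →ₗ[ℝ] Chain k M :=
  Finsupp.linearCombination ℝ fun σ =>
    ∑ i : Fin (k + 2), ((-1 : ℝ) ^ (i : ℕ)) • Finsupp.single (σ.comp (face i)) 1

/-- the `ℓ¹`-norm of a singular chain -/
noncomputable def norm1 {M : Type} [TopologicalSpace M] {k : ℕ} (c : Chain k M) : ℝ :=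
  ∑ σ ∈ c.support, |c σ|

/-- all homology classes of degree `k + 1` have `ℓ¹`-seminorm zero -/
def Negligible (k : ℕ) (M : Type) [TopologicalSpace M] : Prop :=
  ∀ z : Chain (k + 1) M, bdry k z = 0 → ∀ ε : ℝ, 0 < ε →
    ∃ c : Chain (k + 2) M, norm1 (z + bdry (k + 1) c) < ε

/-- every bounded cocycle of degree `k + 1` is a coboundary -/
def BCob (k : ℕ) (M : Type) [TopologicalSpace M] : Prop :=
  ∀ φ : C(Sx (k + 1), M) → ℝ, (∃ C : ℝ, ∀ σ, |φ σ| ≤ C) →
    (∀ τ : C(Sx (k + 2), M), ∑ i : Fin (k + 3), (-1 : ℝ) ^ (i : ℕ) * φ (τ.comp (face i)) = 0) →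
    ∃ ψ : C(Sx k, M) → ℝ, ∀ σ : C(Sx (k + 1), M),
      φ σ = ∑ i : Fin (k + 2), (-1 : ℝ) ^ (i : ℕ) * ψ (σ.comp (face i))

/-- bounded functions -/
def Bdd {Γ : Type} (f : Γ → ℝ) : Prop := ∃ C : ℝ, ∀ γ, |f γ| ≤ C

/-- left invariant means -/
def HasMean (Γ : Type) [Group Γ] : Prop := ∃ m : (Γ → ℝ) → ℝ,
  (∀ f g : Γ → ℝ, Bdd f → Bdd g → m (fun γ => f γ + g γ) = m f + m g) ∧
  (∀ (c : ℝ) (f : Γ → ℝ), Bdd f → m (fun γ => c * f γ) = c * m f) ∧ m (fun _ => 1) = 1 ∧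
  ∀ (f : Γ → ℝ), Bdd f → ∀ δ : Γ, m (fun γ => f (δ * γ)) = m f

/-- duality (Hahn-Banach) -/
def S_HB : Prop := ∀ (M : Type) [TopologicalSpace M] (k : ℕ), BCob k M → Negligible k M

/-- lifts of singular simplices -/
def S_LIFT : Prop := ∀ (X Γ : Type) [TopologicalSpace X] [T2Space X] [LocallyCompactSpace X]
    [Group Γ] [MulAction Γ X], (∀ γ : Γ, Continuous fun x : X => γ • x) →
  (∀ K : Set X, IsCompact K → {γ : Γ | ∃ x ∈ K, γ • x ∈ K}.Finite) →
  (∀ (γ : Γ) (x : X), γ • x = x → γ = 1) →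
  ∀ (k : ℕ) (σ : C(Sx k, MulAction.orbitRel.Quotient Γ X)),
    (∃ s : C(Sx k, X), ∀ p, (Quotient.mk'' (s p) : MulAction.orbitRel.Quotient Γ X) = σ p) ∧
    ∀ s s' : C(Sx k, X),
      (∀ p, (Quotient.mk'' (s p) : MulAction.orbitRel.Quotient Γ X) = σ p) →
      (∀ p, (Quotient.mk'' (s' p) : MulAction.orbitRel.Quotient Γ X) = σ p) →
      ∃ γ : Γ, ∀ p, s' p = γ • s p

/-- cones -/
def S_CONE : Prop := ∀ (E : Type) [NormedAddCommGroup E] [NormedSpace ℝ E]
    [FiniteDimensional ℝ E], ∃ cone : (k : ℕ) → E → C(Sx k, E) → C(Sx (k + 1), E),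
  (∀ k b s, (cone k b s).comp (face 0) = s) ∧
  (∀ k b (s : C(Sx (k + 1), E)) (i : Fin (k + 2)),
    (cone (k + 1) b s).comp (face i.succ) = cone k b (s.comp (face i))) ∧
  ∀ (g : E ≃ᵃ[ℝ] E) (k : ℕ) (b : E) (s s' : C(Sx k, E)), (∀ p, s' p = g (s p)) →
    ∀ p, cone k (g b) s' p = g (cone k b s p)

/-- virtually solvable groups have invariant means -/
def S_MEAN : Prop := ∀ (Γ : Type) [Group Γ] (H : Subgroup Γ), H.FiniteIndex →
  Group.IsSolvable H → HasMean Γ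

/-- bounded cocycles of quotients by amenable groups of affine maps are coboundaries -/
def S_COC : Prop := ∀ (X Γ E : Type) [NormedAddCommGroup E] [NormedSpace ℝ E]
    [FiniteDimensional ℝ E] [TopologicalSpace X] [T2Space X] [LocallyCompactSpace X] [Group Γ]
    [MulAction Γ X] (dev : X ≃ₜ E) (hol : Γ →* (E ≃ᵃ[ℝ] E)),
  (∀ γ : Γ, Continuous fun x : X => γ • x) →
  (∀ K : Set X, IsCompact K → {γ : Γ | ∃ x ∈ K, γ • x ∈ K}.Finite) →
  (∀ (γ : Γ) (x : X), γ • x = x → γ = 1) →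
  (∀ (γ : Γ) (x : X), dev (γ • x) = hol γ (dev x)) → HasMean Γ →
  ∀ k, BCob k (MulAction.orbitRel.Quotient Γ X)

end Pool.Agent.N520.SV
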