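import Pool.Agent.N520.SV.Stm
import Pool.Agent.N520.RO.Asm

/-!
Project SV: assembly.
-/

set_option autoImplicit false

open Set Filter Topology
open Pool.Agent.W689.Mk

namespace Pool.Agent.N520.SV

theorem sv_core (hhb : S_HB) (hm : S_MEAN) (hcoc : S_COC)
    (X Γ E : Type) [NormedAddCommGroup E] [NormedSpace ℝ E]
    [FiniteDimensional ℝ E] [TopologicalSpace X] [T2Space X]
    [Group Γ] [MulAction Γ X] (dev : X → E) (hol : Γ →* (E ≃ᵃ[ℝ] E))
    (D : AffData X Γ E dev hol) (hfree : ∀ (γ : Γ) (x : X), γ • x = x → γ = 1)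
    (hdev : IsHomeomorph dev) (H' : Subgroup Γ) (hH' : H'.FiniteIndex)
    (hs : Group.IsSolvable (H'.map hol)) (k : ℕ) :
    Negligible k (MulAction.orbitRel.Quotient Γ X) := by
  let e : X ≃ₜ E := hdev.homeomorph dev
  have he : ∀ x, e x = dev x := fun x => rfl
  have hlc : LocallyCompactSpace X := by
    have : LocallyCompactSpace E := inferInstance
    exact e.isOpenEmbedding.locallyCompactSpace
  have hinj : Function.Injective hol := by
    rw [injective_iff_map_eq_one]
    intro γ hγ
    have h0 : γ • e.symm 0 = e.symm 0 := by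
      apply hdev.injective
      rw [D.equi, hγ]
      rfl
    exact hfree γ _ h0
  have hsol : Group.IsSolvable H' := by
    have h8 : Function.Injective ((hol.comp H'.subtype).codRestrict (H'.map hol)
        (fun n => ⟨n, n.2, rfl⟩)) := by
      intro a b hab
      have : hol (a : Γ) = hol (b : Γ) := congrArg Subtype.val hab
      exact Subtype.ext (hinj this)
    exact Group.isSolvable_of_isSolvable_injective h8
  exact hhb _ _ (hcoc X Γ E e hol D.cont D.pd hfree D.equi (hm Γ H' hH' hsol) k)

theorem sv_flag (hhb : S_HB) (hm : S_MEAN) (hcoc : S_COC)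
    (X Γ E : Type) [NormedAddCommGroup E] [NormedSpace ℝ E]
    [FiniteDimensional ℝ E] [TopologicalSpace X] [T2Space X] [SecondCountableTopology X]
    [Nonempty X] [Group Γ] [MulAction Γ X] (dev : X → E) (hol : Γ →* (E ≃ᵃ[ℝ] E))
    (D : AffData X Γ E dev hol) (hfree : ∀ (γ : Γ) (x : X), γ • x = x → γ = 1)
    (hinj : Function.Injective dev) (H : Subgroup Γ)
    (hH : H.FiniteIndex) (S : ℕ → Submodule ℝ E) (m : ℕ)
    (hS : Pool.Agent.N520.RO.ConformalFlag hol H S m) (k : ℕ) :
    Negligible k (MulAction.orbitRel.Quotient Γ X) := by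
  obtain ⟨h1, H', hH', hs⟩ := Pool.Agent.N520.RO.quasi X Γ E dev hol D hinj H hH S m hS
  exact sv_core hhb hm hcoc X Γ E dev hol D hfree h1 H' hH' hs k

end Pool.Agent.N520.SV
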