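import Pool.Agent.N520.SV.Asm
import Pool.Agent.TH569.MK.ExpChain

/-!
Project SV: flags on which the linear holonomy is bounded but for the last quotient.
-/

set_option autoImplicit false

open Set Filter Topology
open Pool.Agent.W689.Mk Pool.Agent.TH569.MK

namespace Pool.Agent.N520.SV

/-- The linear holonomy of `H` preserves the flag `0 = S 0 ⊆ … ⊆ S m ⊆ S (m + 1) = E`, is bounded on
`S (i + 1) / S i` for `i < m`, and uniformly quasi-conformal on the last quotient `E / S m`. -/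
def BoundedFlag {Γ E : Type} [Group Γ] [NormedAddCommGroup E] [NormedSpace ℝ E]
    (hol : Γ →* (E ≃ᵃ[ℝ] E)) (H : Subgroup Γ) (S : ℕ → Submodule ℝ E) (m : ℕ) : Prop :=
  S 0 = ⊥ ∧ S (m + 1) = ⊤ ∧ (∀ i ≤ m, S i ≤ S (i + 1)) ∧
    (∀ i ≤ m, ∀ γ ∈ H, ∀ v ∈ S i, (hol γ).linear v ∈ S i) ∧
    ∃ C : ℝ, (∀ i < m, ∀ γ ∈ H, ∀ v ∈ S (i + 1), ∃ w ∈ S i, ‖(hol γ).linear v - w‖ ≤ C * ‖v‖) ∧
      ∀ γ ∈ H, ∃ c : ℝ, 0 < c ∧ ∀ v : E, (∃ w ∈ S m, ‖(hol γ).linear v - w‖ ≤ C * c * ‖v‖) ∧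
        ∃ w ∈ S m, ‖(hol γ⁻¹).linear v - w‖ ≤ C * c⁻¹ * ‖v‖

theorem BoundedFlag.conformal {Γ E : Type} [Group Γ] [NormedAddCommGroup E] [NormedSpace ℝ E]
    {hol : Γ →* (E ≃ᵃ[ℝ] E)} {H : Subgroup Γ} {S : ℕ → Submodule ℝ E} {m : ℕ}
    (h : BoundedFlag hol H S m) : Pool.Agent.N520.RO.ConformalFlag hol H S (m + 1) := by
  obtain ⟨h0, h1, hle, hinv, C, hb, hq⟩ := h
  refine ⟨h0, h1, fun i hi => hle i (by omega), ?_, C, ?_⟩
  · intro i hi γ hγ v hv
    rcases Nat.lt_or_ge m i with h | h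
    · have : i = m + 1 := by omega
      rw [this, h1]
      trivial
    · exact hinv i h γ hγ v hv
  · intro i hi γ hγ
    rcases Nat.lt_or_ge i m with h | h
    · refine ⟨1, one_pos, fun v hv => ⟨?_, ?_⟩⟩
      · rw [mul_one]
        exact hb i h γ hγ v hv
      · rw [inv_one, mul_one]
        exact hb i h γ⁻¹ (inv_mem hγ) v hv
    · have : i = m := by omega
      subst this
      obtain ⟨c, hc, h'⟩ := hq γ hγ
      exact ⟨c, hc, fun v _ => h' v⟩

theorem bounded_complete (X Γ E : Type) [NormedAddCommGroup E] [NormedSpace ℝ E]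
    [FiniteDimensional ℝ E] [TopologicalSpace X] [T2Space X] [SecondCountableTopology X]
    [ConnectedSpace X] [Group Γ] [MulAction Γ X] (dev : X → E) (hol : Γ →* (E ≃ᵃ[ℝ] E))
    (D : AffData X Γ E dev hol) (S : ℕ → Submodule ℝ E) (m : ℕ)
    (h : BoundedFlag hol ⊤ S m) : IsHomeomorph dev := by
  obtain ⟨h0, h1, hle, hinv, C, hb, hq⟩ := h
  have hclosed : IsClosed (S m : Set E) := (S m).closed_of_finiteDimensional
  let Q := EuclideanSpace ℝ (Fin (Module.finrank ℝ (E ⧸ S m)))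
  let te : (E ⧸ S m) ≃L[ℝ] Q := toEuclidean
  let mk : E →L[ℝ] (E ⧸ S m) := LinearMap.toContinuousLinearMap (S m).mkQ
  let π : E →L[ℝ] Q := (te : (E ⧸ S m) →L[ℝ] Q).comp mk
  have hmk : ∀ v, mk v = 0 ↔ v ∈ S m := fun v => Submodule.Quotient.mk_eq_zero _
  have hπs : Function.Surjective π := by
    intro q
    obtain ⟨v, hv⟩ := Submodule.mkQ_surjective (S m) (te.symm q)
    refine ⟨v, ?_⟩
    show te ((S m).mkQ v) = q
    rw [hv, te.apply_symm_apply]
  have hker : ∀ v, π v = 0 → v ∈ S m := by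
    intro v hv
    have : te (mk v) = 0 := hv
    rw [te.map_eq_zero_iff] at this
    exact (hmk v).mp this
  have hπ0 : ∀ v ∈ S m, π v = 0 := by
    intro v hv
    show te (mk v) = 0
    rw [(hmk v).mpr hv, map_zero]
  -- a bounded section
  obtain ⟨M, hM, hsec⟩ : ∃ M : ℝ, 0 < M ∧ ∀ q : Q, ∃ v : E, π v = q ∧ ‖v‖ ≤ M * ‖q‖ := by
    obtain ⟨M, hM, h⟩ := π.exists_preimage_norm_le hπs
    exact ⟨M, hM, h⟩
  let sec : Q → E := fun q => (hsec q).choose
  have hs1 : ∀ q, π (sec q) = q := fun q => (hsec q).choose_spec.1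
  have hs2 : ∀ q, ‖sec q‖ ≤ M * ‖q‖ := fun q => (hsec q).choose_spec.2
  have hwd : ∀ (γ : Γ) (v v' : E), π v = π v' → π ((hol γ).linear v) = π ((hol γ).linear v') := by
    intro γ v v' hvv
    have h2 : v - v' ∈ S m := hker _ (by rw [map_sub, hvv, sub_self])
    have h3 := hinv m le_rfl γ (Subgroup.mem_top γ) _ h2
    have h4 := hπ0 _ h3
    rw [map_sub, map_sub, sub_eq_zero] at h4
    exact h4
  let ρl : Γ → Q →ₗ[ℝ] Q := fun γ =>
    { toFun := fun q => π ((hol γ).linear (sec q))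
      map_add' := by
        intro q q'
        rw [hwd γ (sec (q + q')) (sec q + sec q') (by rw [map_add, hs1, hs1, hs1]), map_add,
          map_add]
      map_smul' := by
        intro c q
        rw [hwd γ (sec (c • q)) (c • sec q) (by rw [map_smul, hs1, hs1]), map_smul, map_smul]
        rfl }
  let ρ : Γ → Q →L[ℝ] Q := fun γ => LinearMap.toContinuousLinearMap (ρl γ)
  have hρ' : ∀ γ q, ρ γ q = π ((hol γ).linear (sec q)) := fun γ q => rfl
  have hρ : ∀ γ v, π ((hol γ).linear v) = ρ γ (π v) := by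
    intro γ v
    rw [hρ']
    exact hwd γ _ _ (by rw [hs1])
  have hnorm : ∀ (γ : Γ) (b : ℝ), (∀ v : E, ∃ w ∈ S m, ‖(hol γ).linear v - w‖ ≤ C * b * ‖v‖) →
      0 < b → ‖ρ γ‖ ≤ (‖π‖ * |C| * M) * b := by
    intro γ b hv hb0
    refine ContinuousLinearMap.opNorm_le_bound _ (by positivity) fun q => ?_
    obtain ⟨w, hw, hle'⟩ := hv (sec q)
    have e1 : ρ γ q = π ((hol γ).linear (sec q) - w) := by
      rw [hρ', map_sub, hπ0 w hw, sub_zero]
    rw [e1]
    calc _ ≤ ‖π‖ * ‖(hol γ).linear (sec q) - w‖ := π.le_opNorm _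
      _ ≤ ‖π‖ * (C * b * ‖sec q‖) := by gcongr
      _ ≤ ‖π‖ * (|C| * b * (M * ‖q‖)) := by
          gcongr
          · exact le_abs_self C
          · exact hs2 q
      _ = _ := by ring
  refine exp_chain_complete D S m ?_ ?_ π hπs hker ρ hρ ?_
  · intro x v hv
    rw [h0, Submodule.mem_bot] at hv
    rw [hv]
    exact ⟨fun _ => x, continuousOn_const, rfl, fun t _ => by rw [smul_zero, add_zero]⟩
  · intro i hi
    exact ⟨C, fun γ v hv => hb i hi γ (Subgroup.mem_top γ) v hv⟩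
  · intro ε hε
    set A : ℝ := ‖π‖ * |C| * M + 1 with hA
    have hA0 : 0 < A := by positivity
    refine ⟨A * (A / ε), fun γ hγ => ?_⟩
    obtain ⟨c, hc, h'⟩ := hq γ (Subgroup.mem_top γ)
    have h2 : ‖ρ γ‖ ≤ A * c := (hnorm γ c (fun v => (h' v).1) hc).trans (by
      gcongr
      linarith)
    have h3 : ‖ρ γ⁻¹‖ ≤ A * c⁻¹ :=
      (hnorm γ⁻¹ c⁻¹ (fun v => (h' v).2) (by positivity)).trans (by
        gcongr
        linarith)
    have h4 : A / ε ≤ c := le_of_mul_le_mul_left (hγ.trans h2) hA0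
    refine h3.trans ?_
    rw [mul_inv_le_iff₀ hc, mul_comm]
    rwa [div_le_iff₀ hε] at h4

theorem sv_bounded (hhb : S_HB) (hm : S_MEAN) (hcoc : S_COC)
    (X Γ E : Type) [NormedAddCommGroup E] [NormedSpace ℝ E]
    [FiniteDimensional ℝ E] [TopologicalSpace X] [T2Space X] [SecondCountableTopology X]
    [ConnectedSpace X] [Group Γ] [MulAction Γ X] (dev : X → E) (hol : Γ →* (E ≃ᵃ[ℝ] E))
    (D : AffData X Γ E dev hol) (hfree : ∀ (γ : Γ) (x : X), γ • x = x → γ = 1)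
    (H : Subgroup Γ) (hH : H.FiniteIndex) (S : ℕ → Submodule ℝ E) (m : ℕ)
    (hS : BoundedFlag hol H S m) (k : ℕ) :
    IsHomeomorph dev ∧ Negligible k (MulAction.orbitRel.Quotient Γ X) := by
  have h1 : IsHomeomorph dev := by
    refine bounded_complete X H E dev (hol.comp H.subtype)
      (Pool.Agent.Y449.MK.restrict D H hH) S m ?_
    obtain ⟨h0, h1, hle, hinv, C, hb, hq⟩ := hS
    exact ⟨h0, h1, hle, fun i hi γ _ v hv => hinv i hi γ γ.2 v hv, C,
      fun i hi γ _ v hv => hb i hi γ γ.2 v hv, fun γ _ => hq γ γ.2⟩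
  exact ⟨h1, sv_flag hhb hm hcoc X Γ E dev hol D hfree h1.injective H hH S (m + 1)
    hS.conformal k⟩

end Pool.Agent.N520.SV
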