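import Pool.Agent.N520.SV.Bdd
import Pool.Agent.N340.SV.HB
import Pool.Agent.N278.SV.Lift
import Pool.Agent.N951.SV.Cone
import Pool.Agent.N225.SV.Mean
import Pool.Agent.N73.SV.Coc

/-!
Project SV: final assembly.
-/

set_option autoImplicit false

open Set Filter Topology
open Pool.Agent.W689.Mk

namespace Pool.Agent.N520.SV

theorem coc : S_COC := Pool.Agent.N73.SV.t_coc Pool.Agent.N278.SV.t_lift Pool.Agent.N951.SV.t_cone

/-- the `ℓ¹`-seminorm of the homology class of a cycle -/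
noncomputable def seminorm1 {k : ℕ} {M : Type} [TopologicalSpace M] (z : Chain (k + 1) M) : ℝ :=
  ⨅ c : Chain (k + 2) M, norm1 (z + bdry (k + 1) c)

theorem norm1_nonneg {k : ℕ} {M : Type} [TopologicalSpace M] (c : Chain k M) : 0 ≤ norm1 c :=
  Finset.sum_nonneg fun _ _ => abs_nonneg _

theorem Negligible.seminorm1_eq_zero {k : ℕ} {M : Type} [TopologicalSpace M]
    (h : Negligible k M) (z : Chain (k + 1) M) (hz : bdry k z = 0) : seminorm1 z = 0 := by
  have hbdd : BddBelow (range fun c : Chain (k + 2) M => norm1 (z + bdry (k + 1) c)) :=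
    ⟨0, by rintro _ ⟨c, rfl⟩; exact norm1_nonneg _⟩
  apply le_antisymm
  · refine le_of_forall_pos_le_add fun ε hε => ?_
    obtain ⟨c, hc⟩ := h z hz ε hε
    rw [zero_add]
    exact (ciInf_le hbdd c).trans hc.le
  · exact le_ciInf fun c => norm1_nonneg _

theorem flag_zero (X Γ E : Type) [NormedAddCommGroup E] [NormedSpace ℝ E]
    [FiniteDimensional ℝ E] [TopologicalSpace X] [T2Space X] [SecondCountableTopology X]
    [Nonempty X] [Group Γ] [MulAction Γ X] (dev : X → E) (hol : Γ →* (E ≃ᵃ[ℝ] E))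
    (D : AffData X Γ E dev hol) (hfree : ∀ (γ : Γ) (x : X), γ • x = x → γ = 1)
    (hinj : Function.Injective dev) (H : Subgroup Γ)
    (hH : H.FiniteIndex) (S : ℕ → Submodule ℝ E) (m : ℕ)
    (hS : Pool.Agent.N520.RO.ConformalFlag hol H S m) (k : ℕ)
    (z : Chain (k + 1) (MulAction.orbitRel.Quotient Γ X)) (hz : bdry k z = 0) :
    seminorm1 z = 0 :=
  (sv_flag Pool.Agent.N340.SV.HB.t_hb Pool.Agent.N225.SV.t_mean coc X Γ E dev hol D hfree hinj H hH
    S m hS k).seminorm1_eq_zero z hz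

theorem bounded_zero (X Γ E : Type) [NormedAddCommGroup E] [NormedSpace ℝ E]
    [FiniteDimensional ℝ E] [TopologicalSpace X] [T2Space X] [SecondCountableTopology X]
    [ConnectedSpace X] [Group Γ] [MulAction Γ X] (dev : X → E) (hol : Γ →* (E ≃ᵃ[ℝ] E))
    (D : AffData X Γ E dev hol) (hfree : ∀ (γ : Γ) (x : X), γ • x = x → γ = 1)
    (H : Subgroup Γ) (hH : H.FiniteIndex) (S : ℕ → Submodule ℝ E) (m : ℕ)
    (hS : BoundedFlag hol H S m) (k : ℕ)
    (z : Chain (k + 1) (MulAction.orbitRel.Quotient Γ X)) (hz : bdry k z = 0) :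
    seminorm1 z = 0 :=
  (sv_bounded Pool.Agent.N340.SV.HB.t_hb Pool.Agent.N225.SV.t_mean coc X Γ E dev hol D hfree H hH
    S m hS k).2.seminorm1_eq_zero z hz

end Pool.Agent.N520.SV
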