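import Pool.Agent.N520.SV.Fin
import Pool.Agent.N520.RO.PlaneF

/-!
Project SV: rank one linear holonomy without zero weight.
-/

set_option autoImplicit false

open Set Filter Topology
open Pool.Agent.W689.Mk

namespace Pool.Agent.N520.SV

theorem solv_zero (X Γ E : Type) [NormedAddCommGroup E] [NormedSpace ℝ E]
    [FiniteDimensional ℝ E] [TopologicalSpace X] [T2Space X]
    [Group Γ] [MulAction Γ X] (dev : X → E) (hol : Γ →* (E ≃ᵃ[ℝ] E))
    (D : AffData X Γ E dev hol) (hfree : ∀ (γ : Γ) (x : X), γ • x = x → γ = 1)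
    (hdev : IsHomeomorph dev)
    (hs : ∃ H' : Subgroup Γ, H'.FiniteIndex ∧ Group.IsSolvable (H'.map hol)) :
    (∃ A : Subgroup Γ, A.FiniteIndex ∧ Group.IsSolvable A) ∧
      ∀ (k : ℕ) (z : Chain (k + 1) (MulAction.orbitRel.Quotient Γ X)), bdry k z = 0 →
        seminorm1 z = 0 := by
  obtain ⟨H', hH', hs⟩ := hs
  refine ⟨⟨H', hH', ?_⟩, fun k z hz => (sv_core Pool.Agent.N340.SV.HB.t_hb
    Pool.Agent.N225.SV.t_mean coc X Γ E dev hol D hfree hdev H' hH' hs k).seminorm1_eq_zero z hz⟩
  let e : X ≃ₜ E := hdev.homeomorph dev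
  have hinj : Function.Injective hol := by
    rw [injective_iff_map_eq_one]
    intro γ hγ
    have h0 : γ • e.symm 0 = e.symm 0 := by
      apply hdev.injective
      rw [D.equi, hγ]
      rfl
    exact hfree γ _ h0
  have h8 : Function.Injective ((hol.comp H'.subtype).codRestrict (H'.map hol)
      (fun n => ⟨n, n.2, rfl⟩)) := by
    intro a b hab
    have : hol (a : Γ) = hol (b : Γ) := congrArg Subtype.val hab
    exact Subtype.ext (hinj this)
  exact Group.isSolvable_of_isSolvable_injective h8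

end Pool.Agent.N520.SV
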